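import Pool.Agent.Helper92.PV.St

/-!
Project PV (MP_ad0dc2_nt), module CBR: Taylor polynomials of the cube root.
-/

set_option autoImplicit false

namespace Pool.Agent.Helper24.PV

open Pool.Agent.Helper92.PV Pool.Agent.Helper92.PU Pool.Agent.Helper92.PW

private lemma poly (n : ℕ) : ∃ P R : Polynomial ℝ, P.eval 0 = 1 ∧
    P ^ 3 - (1 + Polynomial.X) = Polynomial.X ^ (n + 1) * R := by
  induction n with
  | zero => exact ⟨1, -1, by simp, by ring⟩
  | succ n ih =>
    obtain ⟨P, R, h1, h2⟩ := ih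
    set r : ℝ := R.eval 0 with hr
    have h3 : Polynomial.X ∣ R - Polynomial.C r * P ^ 2 := by
      rw [Polynomial.X_dvd_iff, Polynomial.coeff_zero_eq_eval_zero]
      simp [h1, hr]
    obtain ⟨S, hS⟩ := h3
    set c : Polynomial ℝ := Polynomial.C (r / 3) with hc
    have hc3 : Polynomial.C r = 3 * c := by
      rw [hc, ← map_ofNat Polynomial.C 3, ← Polynomial.C_mul]
      congr 1
      ring
    refine ⟨P - c * Polynomial.X ^ (n + 1),
      S + Polynomial.X ^ n * (3 * P * c ^ 2 - c ^ 3 * Polynomial.X ^ (n + 1)), ?_, ?_⟩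
    · simp [h1]
    · rw [hc3] at hS
      linear_combination h2 + Polynomial.X ^ (n + 1) * hS

/-- CBR. Taylor polynomials of the cube root -/
theorem hCBR : StCBR := by
  intro L
  obtain ⟨P, R, -, hPR⟩ := poly L
  obtain ⟨K1, hK1⟩ := (isCompact_Icc (a := (-(1 / 2) : ℝ)) (b := 1 / 2)).exists_bound_of_continuousOn
    (f := fun x => R.eval x) R.continuous.continuousOn
  refine ⟨P, max 1 (64 / 27 * K1), le_max_left _ _, ?_⟩
  intro X b hX hb hb3
  have hX' := abs_le.1 hX
  have hR : |R.eval X| ≤ K1 := hK1 X ⟨by linarith, by linarith⟩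
  have hb34 : 3 / 4 ≤ b := by
    by_contra hcon
    push Not at hcon
    have h1 : b ^ 3 ≤ (3 / 4) ^ 3 := pow_le_pow_left₀ hb hcon.le 3
    norm_num at h1
    linarith
  set q : ℝ := P.eval X with hq
  have hev : q ^ 3 - (1 + X) = X ^ (L + 1) * R.eval X := by
    have h := congrArg (fun p => Polynomial.eval X p) hPR
    simpa [hq] using h
  have hid : (b - q) * (b ^ 2 + b * q + q ^ 2) = -(X ^ (L + 1) * R.eval X) := by
    rw [← hev, ← hb3]; ring
  have hpos : 27 / 64 ≤ b ^ 2 + b * q + q ^ 2 := by nlinarith [sq_nonneg (q + b / 2)]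
  have habs : |b - q| * (b ^ 2 + b * q + q ^ 2) = |X| ^ (L + 1) * |R.eval X| := by
    have h := congrArg abs hid
    rwa [abs_mul, abs_neg, abs_mul, abs_pow, abs_of_pos (by linarith : 0 < b ^ 2 + b * q + q ^ 2)] at h
  have hXL : |X| ^ (L + 1) ≤ |X| ^ L := pow_le_pow_of_le_one (abs_nonneg X) (by linarith) (Nat.le_succ L)
  have hXL0 : 0 ≤ |X| ^ L := by positivity
  have h1 : |b - q| * (27 / 64) ≤ |X| ^ L * K1 := by
    calc |b - q| * (27 / 64) ≤ |b - q| * (b ^ 2 + b * q + q ^ 2) :=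
          mul_le_mul_of_nonneg_left hpos (abs_nonneg _)
      _ = |X| ^ (L + 1) * |R.eval X| := habs
      _ ≤ |X| ^ L * K1 := mul_le_mul hXL hR (abs_nonneg _) hXL0
  calc |b - q| ≤ 64 / 27 * K1 * |X| ^ L := by linarith
    _ ≤ max 1 (64 / 27 * K1) * |X| ^ L := mul_le_mul_of_nonneg_right (le_max_right _ _) hXL0

end Pool.Agent.Helper24.PV
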